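import Mathlib
import Pool.Agent.Q298.FC.JR23

set_option autoImplicit false

open MeasureTheory

/-- **Exact joint ranges of two Fourier coefficients of `×2`, `×3` invariant measures.**
Let `μ` run over all probability measures on the circle which are invariant under `x ↦ 2 x` and
`x ↦ 3 x` and let `c_n = ∫ e(n x) dμ(x)`.
(1) The set of the pairs `(Re c_1, Re c_7)` is exactly the quadrilateral with the vertices
`(-1/4, -1/4)`, `(1/24, -1/4)`, `(1, 1)`, `(-1/6, 1)`.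
(2) The set of the pairs `(Re c_5, Re c_7)` is exactly the pentagon with the vertices
`(-1/4, 0)`, `(-1/6, -1/4)`, `(1, -1/4)`, `(1, 1)`, `(-1/6, 1)`.
(3) If `μ` has no atoms, then all the inequalities are strict: both pairs are interior points. -/
theorem Pool.Agent.Results.MP_e27144_an.JointRanges.result :
    (∀ x y : ℝ, (∃ μ : Measure UnitAddCircle, IsProbabilityMeasure μ ∧
        MeasurePreserving (fun t : UnitAddCircle => 2 • t) μ μ ∧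
        MeasurePreserving (fun t : UnitAddCircle => 3 • t) μ μ ∧
        x = (∫ t, (fourier 1 t : ℂ) ∂μ).re ∧ y = (∫ t, (fourier 7 t : ℂ) ∂μ).re) ↔
      -(1 / 4) ≤ y ∧ y ≤ 1 ∧ 30 * x - 23 * y ≤ 7 ∧ y - 15 * x ≤ 7 / 2) ∧
    (∀ x y : ℝ, (∃ μ : Measure UnitAddCircle, IsProbabilityMeasure μ ∧
        MeasurePreserving (fun t : UnitAddCircle => 2 • t) μ μ ∧
        MeasurePreserving (fun t : UnitAddCircle => 3 • t) μ μ ∧
        x = (∫ t, (fourier 5 t : ℂ) ∂μ).re ∧ y = (∫ t, (fourier 7 t : ℂ) ∂μ).re) ↔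
      x ≤ 1 ∧ -(1 / 4) ≤ y ∧ y ≤ 1 ∧ -(3 / 4) ≤ 3 * x + y ∧ -3 ≤ 12 * x - y) ∧
    (∀ μ : Measure UnitAddCircle, IsProbabilityMeasure μ →
      MeasurePreserving (fun t : UnitAddCircle => 2 • t) μ μ →
      MeasurePreserving (fun t : UnitAddCircle => 3 • t) μ μ → (∀ t, μ {t} = 0) →
      ∀ x y z : ℝ, x = (∫ t, (fourier 1 t : ℂ) ∂μ).re → y = (∫ t, (fourier 5 t : ℂ) ∂μ).re →
        z = (∫ t, (fourier 7 t : ℂ) ∂μ).re →
        (-(1 / 4) < z ∧ z < 1 ∧ 30 * x - 23 * z < 7 ∧ z - 15 * x < 7 / 2) ∧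
        (y < 1 ∧ -(3 / 4) < 3 * y + z ∧ -3 < 12 * y - z)) := by
  have h1 := Pool.Agent.Q298.FC.jr17
  have h2 := Pool.Agent.Q298.FC.jr57
  refine ⟨fun x y => ?_, fun x y => ?_, fun μ hμ hp hq hat x y z hx hy hz => ?_⟩
  · have h3 := Set.ext_iff.mp h1 (x, y)
    refine Iff.trans ?_ h3
    constructor
    · rintro ⟨μ, hμ, hp, hq, hx, hy⟩
      exact ⟨μ, ⟨hμ, hp, hq⟩, by rw [hx, hy]; rfl⟩
    · rintro ⟨μ, ⟨hμ, hp, hq⟩, hv⟩
      exact ⟨μ, hμ, hp, hq, congrArg Prod.fst hv, congrArg Prod.snd hv⟩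
  · have h3 := Set.ext_iff.mp h2 (x, y)
    refine Iff.trans ?_ h3
    constructor
    · rintro ⟨μ, hμ, hp, hq, hx, hy⟩
      exact ⟨μ, ⟨hμ, hp, hq⟩, by rw [hx, hy]; rfl⟩
    · rintro ⟨μ, ⟨hμ, hp, hq⟩, hv⟩
      exact ⟨μ, hμ, hp, hq, congrArg Prod.fst hv, congrArg Prod.snd hv⟩
  · have h : Pool.Agent.Q298.FC.Inv 2 3 μ := ⟨hμ, hp, hq⟩
    subst hx hy hz
    have a1 := (Pool.Agent.Q298.FC.low7 h).2 hat
    have a2 := (Pool.Agent.Q298.FC.up7 h).2 hat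
    have a3 := (Pool.Agent.Q298.FC.ineqA h).2 hat
    have a4 := (Pool.Agent.Q298.FC.ineqB h).2 hat
    have a5 := (Pool.Agent.Q298.FC.up5 h).2 hat
    have a6 := (Pool.Agent.Q298.FC.ineqC h).2 hat
    have a7 := (Pool.Agent.Q298.FC.ineqD h).2 hat
    refine ⟨⟨a1, a2, a3, a4⟩, a5, ?_, a7⟩
    rw [add_comm]
    exact a6
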