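import Mathlib
import Pool.Agent.Q227.Fur.Large
import Pool.Agent.Q227.Fur.Fibre

set_option autoImplicit false

/-!
# Visit times of `×p` orbits and random `×p`-invariant measures

`p, q ≥ 2` with `log p / log q` irrational (for instance `2, 3`).

1. Let `μ` be a probability measure on the circle which is invariant under `×q` (invariance under
   `×p` is not assumed) and let `𝓕` be a translation invariant, partition regular Borel family of
   sets of times.  For `μ`-almost every `x`, either every nonempty open set is visited by the orbit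
   `p ^ n x` at an `𝓕`-large set of times, or there is a finite `×p`-invariant set of rational points
   outside every neighbourhood of which the orbit is only at an `𝓕`-small set of times.
2. Positive upper density and positive upper Banach density are such families.
3. Random measures: if `κ ω` is a random `×p`-invariant probability measure with
   `(×q) κ ω = κ (σ ω)` for a measure preserving map `σ`, and if the average of the `κ ω` has no
   atoms, then almost surely `κ ω` has no atoms and full support.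
-/

open MeasureTheory Set ProbabilityTheory

namespace Pool.Agent.Results.MP_e27144_an.LargeVisitTimes

/-- A family of large sets of times: upward closed, partition regular, not containing the empty
set, closed under adding one to all elements, and Borel as a set of subsets of `ℕ`. -/
structure LargeFamily (𝓕 : Set (Set ℕ)) : Prop where
  up : ∀ A ∈ 𝓕, ∀ B, A ⊆ B → B ∈ 𝓕
  split : ∀ A B, A ∪ B ∈ 𝓕 → A ∈ 𝓕 ∨ B ∈ 𝓕
  empty : ∅ ∉ 𝓕
  shift : ∀ A ∈ 𝓕, (fun n => n + 1) '' A ∈ 𝓕
  meas : MeasurableSet 𝓕

/-- positive upper density: for some `k` the set has at least `N / k` elements below `N` for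
arbitrarily large `N` -/
def PosUpperDensity : Set (Set ℕ) :=
  {A | ∃ k : ℕ, ∀ M : ℕ, ∃ N : ℕ, M < N ∧ N ≤ k * (A ∩ Set.Iio N).ncard}

/-- positive upper Banach density: for some `k` the set has at least `N / k` elements in intervals
`[a, a + N)` of arbitrarily large length `N` -/
def PosUpperBanachDensity : Set (Set ℕ) :=
  {A | ∃ k : ℕ, ∀ M : ℕ, ∃ a N : ℕ, M < N ∧ N ≤ k * (A ∩ Set.Ico a (a + N)).ncard}

/-- Let `p, q ≥ 2` with `log p / log q` irrational. -/
theorem result (p q : ℕ) (hp : 2 ≤ p) (hq : 2 ≤ q) (hirr : Irrational (Real.log p / Real.log q)) :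
    -- (1) visit times of `×p` orbits of typical points of a `×q`-invariant measure
    (∀ 𝓕 : Set (Set ℕ), LargeFamily 𝓕 → ∀ μ : Measure UnitAddCircle, IsProbabilityMeasure μ →
      MeasurePreserving (fun x : UnitAddCircle => q • x) μ μ →
      ∀ᵐ x ∂μ,
        (∀ U : Set UnitAddCircle, IsOpen U → U.Nonempty → {n : ℕ | p ^ n • x ∈ U} ∈ 𝓕) ∨
        ∃ R : Set UnitAddCircle, R.Finite ∧ (∀ t ∈ R, IsOfFinAddOrder t ∧ p • t ∈ R) ∧
          ∀ U : Set UnitAddCircle, IsOpen U → R ⊆ U → {n : ℕ | p ^ n • x ∉ U} ∉ 𝓕) ∧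
    -- (2) two such families
    (LargeFamily PosUpperDensity ∧ LargeFamily PosUpperBanachDensity) ∧
    -- (3) random `×p`-invariant measures moved by `×q`
    (∀ (Ω : Type*) [MeasurableSpace Ω] (P : Measure Ω) [IsProbabilityMeasure P] (σ : Ω → Ω),
      MeasurePreserving σ P P → ∀ (κ : Kernel Ω UnitAddCircle) [IsMarkovKernel κ],
      (∀ᵐ ω ∂P, (κ ω).map (fun x : UnitAddCircle => p • x) = κ ω) →
      (∀ᵐ ω ∂P, (κ ω).map (fun x : UnitAddCircle => q • x) = κ (σ ω)) →
      (∀ x : UnitAddCircle, ∀ᵐ ω ∂P, κ ω {x} = 0) →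
      ∀ᵐ ω ∂P, (∀ x : UnitAddCircle, κ ω {x} = 0) ∧
        ∀ U : Set UnitAddCircle, IsOpen U → U.Nonempty → 0 < κ ω U) := by
  have hpq := Pool.Agent.H705R2.mulIndep_of_irrational hp hq hirr
  have hb := Pool.Agent.Q227.Fur.largeFamily_banach
  have hu := Pool.Agent.Q227.Fur.largeFamily_upper
  refine ⟨fun 𝓕 h μ _ hμ => ?_, ⟨⟨hu.up, hu.split, hu.empty, hu.shift, hu.meas⟩,
    ⟨hb.up, hb.split, hb.empty, hb.shift, hb.meas⟩⟩, ?_⟩
  · exact Pool.Agent.Q227.Fur.large_visits ⟨h.up, h.split, h.empty, h.shift, h.meas⟩ hp hq hpq hμ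
  · intro Ω _ P _ σ hσ κ _ h1 h2 h3
    exact Pool.Agent.Q227.Fur.fibre_support hp hq hpq hσ κ h1 h2 h3

end Pool.Agent.Results.MP_e27144_an.LargeVisitTimes
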