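import Mathlib
import Pool.Agent.Q227.Fur.Circ

set_option autoImplicit false

/-!
# The joint action of `x ↦ p x`, `x ↦ q x` and minimal actions of two commuting maps

For `p, q ≥ 2` multiplicatively independent (for instance `2, 3`), every point `x` of infinite order
of the circle and every point `y` of a minimal system `(Y; S₁, S₂)` given by two commuting maps, the
points `(p ^ i q ^ j x, S₁ ^ i S₂ ^ j y)` are dense in the product.  Hence every joining of an
atomless `×p, ×q` invariant measure with an invariant measure of a minimal system has full support,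
and a measurable joint factor map onto a minimal system takes values in every nonempty open set on
every nonempty open subset of the circle.
-/

open MeasureTheory Set

namespace Pool.Agent.Results.MP_e27144_an.MinimalPlaneJoinings

universe v

/-- **Disjointness from minimal systems of two commuting maps.** Let `p, q ≥ 2`, `log p / log q`
irrational. Let `Y` be a compact Hausdorff space and `S₁, S₂ : Y → Y` commuting continuous maps such
that all orbits `{S₁ ^ i S₂ ^ j y}` are dense.
(1) For every point `x` of infinite order of the circle and every `y` the set of the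
`(p ^ i q ^ j x, S₁ ^ i S₂ ^ j y)` is dense in the product.
(2) Every probability measure on the product which is invariant under `(x, y) ↦ (p x, S₁ y)` and
`(x, y) ↦ (q x, S₂ y)` and whose first marginal is atomless gives positive mass to `U ×ˢ W` for all
nonempty open `U`, `W`.
(3) If `μ` is an atomless probability measure invariant under `×p` and `×q` and `φ (p x) = S₁ (φ x)`,
`φ (q x) = S₂ (φ x)` for `μ`-almost all `x`, then `U ∩ φ ⁻¹ W` has positive mass for all nonempty
open `U`, `W`. -/
theorem result (p q : ℕ) (hp : 2 ≤ p) (hq : 2 ≤ q) (hirr : Irrational (Real.log p / Real.log q))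
    (Y : Type v) [TopologicalSpace Y] [CompactSpace Y] [T2Space Y] (S₁ S₂ : Y → Y)
    (h₁ : Continuous S₁) (h₂ : Continuous S₂) (hc : ∀ y, S₁ (S₂ y) = S₂ (S₁ y))
    (hm : ∀ y, Dense (range fun n : ℕ × ℕ => S₁^[n.1] (S₂^[n.2] y))) :
    (∀ x : UnitAddCircle, ¬ IsOfFinAddOrder x → ∀ y,
      Dense (range fun n : ℕ × ℕ => ((p ^ n.1 * q ^ n.2) • x, S₁^[n.1] (S₂^[n.2] y)))) ∧
    (∀ [MeasurableSpace Y] (ρ : Measure (UnitAddCircle × Y)), IsProbabilityMeasure ρ →
      (∀ x, ρ (Prod.fst ⁻¹' {x}) = 0) →
      MeasurePreserving (fun z : UnitAddCircle × Y => (p • z.1, S₁ z.2)) ρ ρ →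
      MeasurePreserving (fun z : UnitAddCircle × Y => (q • z.1, S₂ z.2)) ρ ρ →
      ∀ U : Set UnitAddCircle, ∀ W : Set Y, IsOpen U → U.Nonempty → IsOpen W → W.Nonempty →
        0 < ρ (U ×ˢ W)) ∧
    (∀ μ : Measure UnitAddCircle, IsProbabilityMeasure μ → (∀ x, μ {x} = 0) →
      MeasurePreserving (fun x : UnitAddCircle => p • x) μ μ →
      MeasurePreserving (fun x : UnitAddCircle => q • x) μ μ →
      ∀ φ : UnitAddCircle → Y, (∀ᵐ x ∂μ, φ (p • x) = S₁ (φ x)) → (∀ᵐ x ∂μ, φ (q • x) = S₂ (φ x)) →
      ∀ U : Set UnitAddCircle, ∀ W : Set Y, IsOpen U → U.Nonempty → IsOpen W → W.Nonempty →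
        0 < μ (U ∩ φ ⁻¹' W)) := by
  have h0 : ∀ x : UnitAddCircle, ¬ IsOfFinAddOrder x → ∀ y,
      Dense (range fun n : ℕ × ℕ => ((p ^ n.1 * q ^ n.2) • x, S₁^[n.1] (S₂^[n.2] y))) := by
    intro x hx y
    refine Pool.Agent.Q227.Fur.dense_prod2 hp hq h₁ h₂ hc hm (fun r hr => ?_) y
    refine Pool.Agent.H847R3.XpXq.dense_orbit (hp.trans (Nat.le_self_pow (by omega) p))
      (hq.trans (Nat.le_self_pow (by omega) q)) ?_ hx
    have hr0 : (r : ℝ) ≠ 0 := by positivity
    have e : Real.log ((p ^ r : ℕ) : ℝ) / Real.log ((q ^ r : ℕ) : ℝ) = Real.log p / Real.log q := by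
      push_cast
      rw [Real.log_pow, Real.log_pow, mul_div_mul_left _ _ hr0]
    rw [e]
    exact hirr
  have htc : {x : UnitAddCircle | IsOfFinAddOrder x}.Countable :=
    Pool.Agent.H705R2.torsion_countable
  refine ⟨h0, ?_, ?_⟩
  · intro _ ρ hρ hat hρ1 hρ2 U W hU hUn hW hWn
    rw [pos_iff_ne_zero]
    intro hz
    have hit1 : ∀ n : ℕ, (fun z : UnitAddCircle × Y => (p • z.1, S₁ z.2))^[n] =
        fun z => (p ^ n • z.1, S₁^[n] z.2) := by
      intro n
      induction n with
      | zero => ext z <;> simp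
      | succ n ih =>
        funext z
        rw [Function.iterate_succ_apply', ih]
        simp only [pow_succ', mul_smul, Function.iterate_succ_apply']
    have hit2 : ∀ n : ℕ, (fun z : UnitAddCircle × Y => (q • z.1, S₂ z.2))^[n] =
        fun z => (q ^ n • z.1, S₂^[n] z.2) := by
      intro n
      induction n with
      | zero => ext z <;> simp
      | succ n ih =>
        funext z
        rw [Function.iterate_succ_apply', ih]
        simp only [pow_succ', mul_smul, Function.iterate_succ_apply']
    have h2 : ∀ᵐ z ∂ρ, ∀ n : ℕ × ℕ, ((p ^ n.1 * q ^ n.2) • z.1, S₁^[n.1] (S₂^[n.2] z.2)) ∉ U ×ˢ W := by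
      rw [ae_all_iff]
      rintro ⟨i, j⟩
      have h3 : ∀ᵐ z ∂ρ, z ∉ U ×ˢ W := measure_eq_zero_iff_ae_notMem.1 hz
      have h4 := (hρ1.iterate i).quasiMeasurePreserving.ae h3
      have h5 := (hρ2.iterate j).quasiMeasurePreserving.ae h4
      rw [hit1 i, hit2 j] at h5
      filter_upwards [h5] with z hz1
      simpa only [mul_smul] using hz1
    have h3 : ∀ᵐ z ∂ρ, ¬ IsOfFinAddOrder z.1 := by
      have h4 : ρ (Prod.fst ⁻¹' {x : UnitAddCircle | IsOfFinAddOrder x}) = 0 := by
        have e : (Prod.fst ⁻¹' {x : UnitAddCircle | IsOfFinAddOrder x} :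
            Set (UnitAddCircle × Y)) =
            ⋃ x ∈ {x : UnitAddCircle | IsOfFinAddOrder x}, Prod.fst ⁻¹' {x} := by
          ext z; simp
        rw [e, measure_biUnion_null_iff htc]
        exact fun x _ => hat x
      exact measure_eq_zero_iff_ae_notMem.1 h4
    obtain ⟨z, hz1, hz2⟩ := (h2.and h3).exists
    obtain ⟨_, ⟨n, rfl⟩, h5⟩ := (h0 z.1 hz2 z.2).exists_mem_open (hU.prod hW) (hUn.prod hWn)
    exact hz1 n h5
  · intro μ hμ hat hμp hμq φ hφ1 hφ2 U W hU hUn hW hWn
    rw [pos_iff_ne_zero]
    intro hz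
    have hit : ∀ (a n : ℕ), (fun x : UnitAddCircle => a • x)^[n] = fun x => a ^ n • x := by
      intro a n
      induction n with
      | zero => ext x; simp
      | succ n ih =>
        ext x
        rw [Function.iterate_succ_apply', ih]
        simp only [pow_succ', mul_smul]
    have hall : ∀ P : UnitAddCircle → Prop, (∀ᵐ x ∂μ, P x) →
        ∀ᵐ x ∂μ, ∀ n : ℕ × ℕ, P ((p ^ n.1 * q ^ n.2) • x) := by
      intro P hP
      rw [ae_all_iff]
      rintro ⟨i, j⟩
      have h4 := (hμp.iterate i).quasiMeasurePreserving.ae hP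
      have h5 := (hμq.iterate j).quasiMeasurePreserving.ae h4
      rw [hit p i, hit q j] at h5
      filter_upwards [h5] with x hx
      simpa only [mul_smul] using hx
    have h3 : ∀ᵐ x ∂μ, ¬ IsOfFinAddOrder x := by
      have h4 : μ {x : UnitAddCircle | IsOfFinAddOrder x} = 0 := by
        have : NullSingletonClass μ := ⟨hat⟩
        exact htc.measure_zero μ
      exact measure_eq_zero_iff_ae_notMem.1 h4
    obtain ⟨x, hx1, hx2, hx3, hx4⟩ := ((hall _ (measure_eq_zero_iff_ae_notMem.1 hz)).and
      ((hall _ hφ1).and ((hall _ hφ2).and h3))).exists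
    have hj : ∀ j : ℕ, φ (q ^ j • x) = S₂^[j] (φ x) := by
      intro j
      induction j with
      | zero => simp
      | succ j ih =>
        have h6 := hx3 (0, j)
        simp only [pow_zero, one_mul] at h6
        rw [Function.iterate_succ_apply', ← ih, pow_succ', mul_smul, h6]
    have hij : ∀ i j : ℕ, φ ((p ^ i * q ^ j) • x) = S₁^[i] (S₂^[j] (φ x)) := by
      intro i j
      induction i with
      | zero => simpa using hj j
      | succ i ih =>
        have h6 := hx2 (i, j)
        simp only at h6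
        rw [Function.iterate_succ_apply', ← ih, ← h6, pow_succ', mul_assoc, mul_smul p]
    obtain ⟨_, ⟨n, rfl⟩, h5⟩ := (h0 x hx4 (φ x)).exists_mem_open (hU.prod hW) (hUn.prod hWn)
    refine hx1 n ⟨h5.1, ?_⟩
    show φ ((p ^ n.1 * q ^ n.2) • x) ∈ W
    rw [hij]
    exact h5.2

end Pool.Agent.Results.MP_e27144_an.MinimalPlaneJoinings
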