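import Pool.Agent.H185.XQ.Inf

/-!
# One or infinitely many: the number of atomless ergodic measures of `×2, ×3`

Let `S` be a set of positive integers which contains a number `p ≥ 2` (for Furstenberg's question
`S = {2, 3}`).  The number of the atomless probability measures on the circle which are invariant
and ergodic for the multiplications by the elements of `S` is one or infinite: either Lebesgue
measure is the only atomless invariant measure, or there are infinitely many atomless ergodic ones.
Moreover the Fourier coefficients of every atomless invariant measure other than Lebesgue measure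
take infinitely many values.
-/

set_option autoImplicit false

open MeasureTheory Set

namespace Pool.Agent.Results.MP_e27144_an.OneOrInfinitelyMany

/-- The atomless Borel probability measures on the circle which are invariant under `x ↦ s x` for
all `s` in `S`. -/
def AtomlessInvariant (S : Set ℕ) : Set (Measure UnitAddCircle) :=
  {μ | IsProbabilityMeasure μ ∧ (∀ x, μ {x} = 0) ∧
    ∀ s ∈ S, MeasurePreserving (fun x : UnitAddCircle => s • x) μ μ}

/-- The measures among them which are ergodic for the joint action. -/
def AtomlessErgodic (S : Set ℕ) : Set (Measure UnitAddCircle) :=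
  {μ | μ ∈ AtomlessInvariant S ∧ ∀ E : Set UnitAddCircle, MeasurableSet E →
    (∀ s ∈ S, (fun x : UnitAddCircle => s • x) ⁻¹' E = E) → μ E = 0 ∨ μ E = 1}

/-- **One or infinitely many.** -/
theorem result (S : Set ℕ) (h0 : ∀ s ∈ S, 0 < s) (hS : ∃ p ∈ S, 2 ≤ p) :
    ((AtomlessInvariant S = {volume} ∧ AtomlessErgodic S = {volume}) ∨
      ((AtomlessErgodic S).Infinite ∧ volume ∈ AtomlessErgodic S)) ∧
    ∀ μ ∈ AtomlessInvariant S, μ ≠ volume →
      (range fun n : ℤ => ∫ x : UnitAddCircle, (fourier n x : ℂ) ∂μ).Infinite := by
  obtain ⟨p, hpS, hp⟩ := hS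
  have hvol : (volume : Measure UnitAddCircle) ∈ AtomlessErgodic S := by
    refine ⟨⟨inferInstance, fun x => ?_, fun s hs => ?_⟩, fun E hE hEi => ?_⟩
    · rw [← Metric.closedBall_zero, AddCircle.volume_closedBall]; simp
    · exact Pool.Agent.H185.XQ.inv_iff.2 fun n => by
        by_cases hn : n = 0
        · simp [hn]
        · rw [Pool.Agent.H185.XQ.cf_volume hn, Pool.Agent.H185.XQ.cf_volume]
          have := (h0 s hs).ne'
          positivity
    · have herg := AddCircle.ergodic_nsmul (T := (1 : ℝ)) (n := p) (by omega)
      have h1 := herg.toPreErgodic.ae_empty_or_univ hE (hEi p hpS)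
      rcases h1 with h1 | h1
      · left
        rw [measure_congr h1]; simp
      · right
        rw [measure_congr h1]; simp
  have hcoef : ∀ μ ∈ AtomlessInvariant S, μ ≠ volume →
      (range fun n : ℤ => ∫ x : UnitAddCircle, (fourier n x : ℂ) ∂μ).Infinite := by
    intro μ hμ hne hfin
    have := hμ.1
    exact hne (Pool.Agent.H185.XQ.eq_volume_of_range hμ.2.1 hp (hμ.2.2 p hpS) hfin)
  refine ⟨?_, hcoef⟩
  by_cases h : ∃ μ ∈ AtomlessInvariant S, μ ≠ volume
  · right
    obtain ⟨μ, hμ, hne⟩ := h
    have := hμ.1
    refine ⟨?_, hvol⟩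
    have h1 := Pool.Agent.H185.XQ.infinite_AE (S := S) ⟨p, hpS, hp⟩ hμ.2.1 hμ.2.2 hne
    refine h1.mono ?_
    rintro ρ ⟨a, b, c, d⟩
    exact ⟨⟨a, b, c⟩, d⟩
  · left
    push Not at h
    constructor
    · exact Subset.antisymm (fun μ hμ => h μ hμ) (singleton_subset_iff.2 hvol.1)
    · exact Subset.antisymm (fun μ hμ => h μ hμ.1) (singleton_subset_iff.2 hvol)

end Pool.Agent.Results.MP_e27144_an.OneOrInfinitelyMany
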